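import Pool.Agent.Work.MP_c71557_gt.F.FinA
import Pool.Agent.Work.MP_c71557_gt.H.Base

set_option autoImplicit false
set_option linter.unusedVariables false

/-!
# MP_c71557_gt, module T/Cnt: additive maps from the integral homology to `ℝ` have a countable range

The proof of F/Fin, with its conclusion stated for every additive map.
-/

namespace C715

open CategoryTheory ActCat

theorem range_cnt {Γ : Type} [Group Γ] (K : Subgroup Γ) (h : Countable (HC (sg K).Obj 3))
    (f : (groupHomology (Rep.trivial ℤ K ℤ) 3) →+ ℝ) : (Set.range f).Countable := by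
  obtain ⟨c, hc1, hc2, hc3⟩ := fin_chain K
  have hinj : Function.Injective (groupHomology.iCycles (Rep.trivial ℤ K ℤ) 3).hom :=
    (ModuleCat.mono_iff_injective (groupHomology.iCycles (Rep.trivial ℤ K ℤ) 3)).1 inferInstance
  have hdi : ∀ z : groupHomology.cycles (Rep.trivial ℤ K ℤ) 3,
      (groupHomology.inhomogeneousChains.d (Rep.trivial ℤ K ℤ) 2).hom
        ((groupHomology.iCycles (Rep.trivial ℤ K ℤ) 3).hom z) = 0 := by
    intro z
    have h1 := (groupHomology.inhomogeneousChains (Rep.trivial ℤ K ℤ)).iCycles_d 3 2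
    have h2 := congrArg (fun g => g.hom z) h1
    rw [groupHomology.inhomogeneousChains.d_def] at h2
    exact h2
  have htc : ∀ w : (Fin 4 → K) →₀ (Rep.trivial ℤ K ℤ),
      (groupHomology.iCycles (Rep.trivial ℤ K ℤ) 3).hom
        ((groupHomology.toCycles (Rep.trivial ℤ K ℤ) 4 3).hom w) =
        (groupHomology.inhomogeneousChains.d (Rep.trivial ℤ K ℤ) 3).hom w := by
    intro w
    have h1 := (groupHomology.inhomogeneousChains (Rep.trivial ℤ K ℤ)).toCycles_i 4 3
    have h2 := congrArg (fun g => g.hom w) h1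
    rw [groupHomology.inhomogeneousChains.d_def] at h2
    exact h2
  have hπ0 : ∀ w : (Fin 4 → K) →₀ (Rep.trivial ℤ K ℤ),
      (groupHomology.π (Rep.trivial ℤ K ℤ) 3).hom
        ((groupHomology.toCycles (Rep.trivial ℤ K ℤ) 4 3).hom w) = 0 := by
    intro w
    have h1 := (groupHomology.inhomogeneousChains (Rep.trivial ℤ K ℤ)).toCycles_comp_homologyπ 4 3
    have h2 := congrArg (fun g => g.hom w) h1
    exact h2
  have hcyc : ∀ z : groupHomology.cycles (Rep.trivial ℤ K ℤ) 3,
      c 3 ((groupHomology.iCycles (Rep.trivial ℤ K ℤ) 3).hom z) ∈ (NC (sg K).Obj).Z 3 := by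
    intro z
    show (NC (sg K).Obj).d 2 _ = 0
    rw [← hc1, hdi, map_zero]
  obtain ⟨F, hF⟩ : ∃ F : groupHomology.cycles (Rep.trivial ℤ K ℤ) 3 → HC (sg K).Obj 3,
      ∀ z, F z = (NC (sg K).Obj).cls 3 _ (hcyc z) := ⟨_, fun _ => rfl⟩
  have key : ∀ z z' : groupHomology.cycles (Rep.trivial ℤ K ℤ) 3, F z = F z' →
      f ((groupHomology.π (Rep.trivial ℤ K ℤ) 3).hom z) =
        f ((groupHomology.π (Rep.trivial ℤ K ℤ) 3).hom z') := by
    intro z z' hzz
    rw [hF, hF] at hzz
    have h1 := (Submodule.Quotient.eq _).1 hzz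
    obtain ⟨y, hy⟩ : ∃ y, (NC (sg K).Obj).d 3 y =
        c 3 ((groupHomology.iCycles (Rep.trivial ℤ K ℤ) 3).hom z) -
          c 3 ((groupHomology.iCycles (Rep.trivial ℤ K ℤ) 3).hom z') := h1
    obtain ⟨N, w, hN, hw⟩ := hc3 4 y
    have h2 : c 3 (N • (groupHomology.iCycles (Rep.trivial ℤ K ℤ) 3).hom (z - z')) =
        c 3 ((groupHomology.inhomogeneousChains.d (Rep.trivial ℤ K ℤ) 3).hom w) := by
      rw [hc1, ← hw, LinearMap.map_smul ((NC (sg K).Obj).d 3), hy, map_nsmul, map_sub, map_sub,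
        ← Nat.cast_smul_eq_nsmul ℚ]
    have h3 := hc2 3 h2
    have h4 : N • (z - z') = (groupHomology.toCycles (Rep.trivial ℤ K ℤ) 4 3).hom w := by
      apply hinj
      rw [map_nsmul, htc]
      exact h3
    have h5 : N • ((groupHomology.π (Rep.trivial ℤ K ℤ) 3).hom (z - z')) = 0 := by
      rw [← map_nsmul, h4, hπ0]
    have h6 : (N : ℝ) * f ((groupHomology.π (Rep.trivial ℤ K ℤ) 3).hom (z - z')) = 0 := by
      rw [← nsmul_eq_mul, ← map_nsmul, h5, map_zero]
    have hN0 : (N : ℝ) ≠ 0 := by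
      have : 0 < N := hN
      exact_mod_cast this.ne'
    have h7 := (mul_eq_zero.1 h6).resolve_left hN0
    rw [map_sub, map_sub] at h7
    exact sub_eq_zero.1 h7
  classical
  obtain ⟨g, hg⟩ : ∃ g : HC (sg K).Obj 3 → ℝ, ∀ x ∈ Set.range f, ∃ y, g y = x := by
    refine ⟨fun y => if hy : ∃ z, F z = y then
      f ((groupHomology.π (Rep.trivial ℤ K ℤ) 3).hom hy.choose) else 0, ?_⟩
    rintro x ⟨v, rfl⟩
    induction v using groupHomology_induction_on with
    | h z =>
      refine ⟨F z, ?_⟩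
      have hy : ∃ z', F z' = F z := ⟨z, rfl⟩
      show (if hy : ∃ z', F z' = F z then
        f ((groupHomology.π (Rep.trivial ℤ K ℤ) 3).hom hy.choose) else 0) = _
      rw [dif_pos hy]
      exact key _ _ hy.choose_spec
  exact (Set.countable_range g).mono fun x hx => hg x hx

end C715
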