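import Pool.Agent.Work.MP_c71557_gt.P.Inv

set_option autoImplicit false
set_option linter.unusedVariables false

/-!
# MP_c71557_gt, module T/Set: every element of `Gc` is affine on finitely many polytopes which cover its support

The second half of the proof of F/Frz, as a statement on elements instead of the generated subgroup.
-/

namespace C715

private theorem aff_L3 (A : (ℝ × ℝ) →ᵃ[ℝ] (ℝ × ℝ)) : ∃ m n : L3, ∀ x, A x = (m.ev x, n.ev x) := by
  refine ⟨⟨(A.linear (1, 0)).1, (A.linear (0, 1)).1, (A 0).1⟩,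
    ⟨(A.linear (1, 0)).2, (A.linear (0, 1)).2, (A 0).2⟩, fun x => ?_⟩
  have h1 : A x = A.linear x + A 0 := by
    have := A.map_vadd 0 x
    simpa using this
  have h2 : x = x.1 • ((1 : ℝ), (0 : ℝ)) + x.2 • ((0 : ℝ), (1 : ℝ)) := by
    ext <;> simp
  have h3 : A.linear x = x.1 • A.linear (1, 0) + x.2 • A.linear (0, 1) := by
    conv_lhs => rw [h2]
    rw [map_add, map_smul, map_smul]
  rw [h1, h3]
  ext
  · simp only [L3.ev, Prod.fst_add, Prod.smul_fst, smul_eq_mul]
    ring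
  · simp only [L3.ev, Prod.snd_add, Prod.smul_snd, smul_eq_mul]
    ring

private theorem L3_aff (m n : L3) :
    ∃ A : (ℝ × ℝ) →ᵃ[ℝ] (ℝ × ℝ), ∀ x, A x = (m.ev x, n.ev x) := by
  refine ⟨⟨fun x => (m.ev x, n.ev x),
    LinearMap.prod (m.a • LinearMap.fst ℝ ℝ ℝ + m.b • LinearMap.snd ℝ ℝ ℝ)
      (n.a • LinearMap.fst ℝ ℝ ℝ + n.b • LinearMap.snd ℝ ℝ ℝ), fun p v => ?_⟩, fun x => rfl⟩
  ext
  · simp [L3.ev]
    ring
  · simp [L3.ev]
    ring

private theorem ev_cont (l : L3) : Continuous l.ev := by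
  unfold L3.ev
  fun_prop

private theorem ev_comb (l : L3) (x y : P2) (s t : ℝ) (h : s + t = 1) :
    l.ev (s • x + t • y) = s * l.ev x + t * l.ev y := by
  simp only [L3.ev, Prod.fst_add, Prod.snd_add, Prod.smul_fst, Prod.smul_snd, smul_eq_mul]
  have : l.c = (s + t) * l.c := by rw [h, one_mul]
  linear_combination this

/-- the closed cell of `x0` -/
private def Cc (D : Finset L3) (x0 : P2) : Set P2 :=
  {x | ∀ d ∈ D, (0 < d.ev x0 → 0 ≤ d.ev x) ∧ (d.ev x0 < 0 → d.ev x ≤ 0) ∧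
    (d.ev x0 = 0 → d.ev x = 0)}

/-- the open cell of `x0` -/
private def Oc (D : Finset L3) (x0 : P2) : Set P2 :=
  {x | ∀ d ∈ D, (0 < d.ev x0 → 0 < d.ev x) ∧ (d.ev x0 < 0 → d.ev x < 0) ∧
    (d.ev x0 = 0 → d.ev x = 0)}

private theorem mem_Cc (D : Finset L3) (x0 : P2) : x0 ∈ Cc D x0 :=
  fun _ _ => ⟨fun h => h.le, fun h => h.le, fun h => h⟩

private theorem mem_Oc (D : Finset L3) (x0 : P2) : x0 ∈ Oc D x0 :=
  fun _ _ => ⟨fun h => h, fun h => h, fun h => h⟩

private theorem Cc_convex (D : Finset L3) (x0 : P2) : Convex ℝ (Cc D x0) := by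
  intro x hx y hy s t hs ht hst d hd
  rw [ev_comb d x y s t hst]
  obtain ⟨h1, h2, h3⟩ := hx d hd
  obtain ⟨g1, g2, g3⟩ := hy d hd
  refine ⟨fun h => ?_, fun h => ?_, fun h => ?_⟩
  · have := h1 h
    have := g1 h
    positivity
  · have := h2 h
    have := g2 h
    nlinarith
  · rw [h3 h, g3 h]
    ring

private theorem Oc_convex (D : Finset L3) (x0 : P2) : Convex ℝ (Oc D x0) := by
  intro x hx y hy s t hs ht hst d hd
  rw [ev_comb d x y s t hst]
  obtain ⟨h1, h2, h3⟩ := hx d hd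
  obtain ⟨g1, g2, g3⟩ := hy d hd
  refine ⟨fun h => ?_, fun h => ?_, fun h => ?_⟩
  · have a1 := h1 h
    have a2 := g1 h
    rcases hs.lt_or_eq with h0 | h0
    · have := mul_pos h0 a1
      have := mul_nonneg ht a2.le
      linarith
    · have h4 : t = 1 := by linarith
      rw [← h0, h4]
      linarith
  · have a1 := h2 h
    have a2 := g2 h
    rcases hs.lt_or_eq with h0 | h0
    · have := mul_neg_of_pos_of_neg h0 a1
      have := mul_nonpos_of_nonneg_of_nonpos ht a2.le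
      linarith
    · have h4 : t = 1 := by linarith
      rw [← h0, h4]
      linarith
  · rw [h3 h, g3 h]
    ring

private theorem Cc_closed (D : Finset L3) (x0 : P2) : IsClosed (Cc D x0) := by
  have h : Cc D x0 = ⋂ d ∈ D, ({x | 0 < d.ev x0 → 0 ≤ d.ev x} ∩ ({x | d.ev x0 < 0 → d.ev x ≤ 0} ∩
      {x | d.ev x0 = 0 → d.ev x = 0})) := by
    ext x
    simp only [Cc, Set.mem_ofPred_eq, Set.mem_iInter, Set.mem_inter_iff]
  rw [h]
  refine isClosed_biInter fun d _ => ?_
  refine IsClosed.inter ?_ (IsClosed.inter ?_ ?_)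
  · by_cases h0 : 0 < d.ev x0
    · simp only [h0, forall_const]
      exact isClosed_le continuous_const (ev_cont d)
    · simp only [h0, IsEmpty.forall_iff, Set.ofPred_true, isClosed_univ]
  · by_cases h0 : d.ev x0 < 0
    · simp only [h0, forall_const]
      exact isClosed_le (ev_cont d) continuous_const
    · simp only [h0, IsEmpty.forall_iff, Set.ofPred_true, isClosed_univ]
  · by_cases h0 : d.ev x0 = 0
    · simp only [h0, forall_const]
      exact isClosed_eq (ev_cont d) continuous_const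
    · simp only [h0, IsEmpty.forall_iff, Set.ofPred_true, isClosed_univ]

private theorem Cc_sub_closure (D : Finset L3) (x0 : P2) : Cc D x0 ⊆ closure (Oc D x0) := by
  intro x hx
  have hc : Filter.Tendsto (fun t : ℝ => (1 - t) • x + t • x0) (nhdsWithin 0 (Set.Ioi 0))
      (nhds x) := by
    have : Continuous (fun t : ℝ => (1 - t) • x + t • x0) := by fun_prop
    have h3 := this.tendsto 0
    simp only [sub_zero, one_smul, zero_smul, add_zero] at h3
    exact h3.mono_left nhdsWithin_le_nhds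
  refine mem_closure_of_tendsto hc ?_
  have h1 : ∀ᶠ t in nhdsWithin (0 : ℝ) (Set.Ioi 0), t ∈ Set.Ioo (0 : ℝ) 1 :=
    Ioo_mem_nhdsGT one_pos
  filter_upwards [h1] with t ht
  intro d hd
  rw [ev_comb d x x0 _ _ (by ring)]
  obtain ⟨h2, h3, h4⟩ := hx d hd
  obtain ⟨t0, t1⟩ := ht
  refine ⟨fun h => ?_, fun h => ?_, fun h => ?_⟩
  · have := mul_nonneg (sub_nonneg.2 t1.le) (h2 h)
    have := mul_pos t0 h
    linarith
  · have := mul_nonpos_of_nonneg_of_nonpos (sub_nonneg.2 t1.le) (h3 h)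
    have := mul_neg_of_pos_of_neg t0 h
    linarith
  · rw [h4 h, h]
    ring

/-- on a closed cell a selection is one affine function -/
private theorem sel (D : Finset L3) (S : Finset L3)
    (hD : ∀ l ∈ S, ∀ l' ∈ S, (⟨l.a - l'.a, l.b - l'.b, l.c - l'.c⟩ : L3) ∈ D)
    (φ : P2 → ℝ) (hφ : Continuous φ) (h : ∀ x, ∃ l ∈ S, φ x = l.ev x) (x0 : P2) :
    ∃ l : L3, ∀ x ∈ Cc D x0, φ x = l.ev x := by
  obtain ⟨l0, hl0, e0⟩ := h x0
  refine ⟨l0, ?_⟩
  have hdiff : ∀ (l l' : L3) (x : P2),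
      (⟨l.a - l'.a, l.b - l'.b, l.c - l'.c⟩ : L3).ev x = l.ev x - l'.ev x := by
    intro l l' x
    simp only [L3.ev]
    ring
  have hO : Oc D x0 ⊆ {x | φ x = l0.ev x} := by
    have hpc := (Oc_convex D x0).isPreconnected
    rw [isPreconnected_closed_iff] at hpc
    have hT : IsClosed (⋃ l ∈ {l ∈ (S : Set L3) | l.ev x0 ≠ l0.ev x0}, {x | φ x = l.ev x}) := by
      refine Set.Finite.isClosed_biUnion (S.finite_toSet.subset fun l hl => hl.1) fun l _ => ?_
      exact isClosed_eq hφ (ev_cont l)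
    have h1 := hpc {x | φ x = l0.ev x}
      (⋃ l ∈ {l ∈ (S : Set L3) | l.ev x0 ≠ l0.ev x0}, {x | φ x = l.ev x})
      (isClosed_eq hφ (ev_cont l0)) hT (fun y hy => ?_) ⟨x0, mem_Oc D x0, e0⟩
    · intro y hy
      by_contra hne
      obtain ⟨l, hl, e⟩ := h y
      by_cases hll : l.ev x0 = l0.ev x0
      · apply hne
        have h2 := (hy _ (hD l hl l0 hl0)).2.2 (by rw [hdiff, hll, sub_self])
        rw [hdiff, sub_eq_zero] at h2
        exact e.trans h2
      · obtain ⟨z, hz, hz1, hz2⟩ := h1 ⟨y, hy, Set.mem_biUnion (show l ∈ {l ∈ (S : Set L3) |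
          l.ev x0 ≠ l0.ev x0} from ⟨hl, hll⟩) e⟩
        obtain ⟨l', hl', e'⟩ := Set.mem_iUnion₂.1 hz2
        have e1 : φ z = l0.ev z := hz1
        have e2 : φ z = l'.ev z := e'
        have h3 := hz _ (hD l' hl'.1 l0 hl0)
        rw [hdiff, hdiff] at h3
        have h4 : l'.ev z - l0.ev z = 0 := by rw [← e1, ← e2, sub_self]
        rcases lt_trichotomy (l'.ev x0 - l0.ev x0) 0 with h5 | h5 | h5
        · exact (h3.2.1 h5).ne h4
        · exact hl'.2 (sub_eq_zero.1 h5)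
        · exact (h3.1 h5).ne' h4
    · obtain ⟨l, hl, e⟩ := h y
      by_cases hll : l.ev x0 = l0.ev x0
      · left
        have h2 := (hy _ (hD l hl l0 hl0)).2.2 (by rw [hdiff, hll, sub_self])
        rw [hdiff, sub_eq_zero] at h2
        exact e.trans h2
      · right
        exact Set.mem_biUnion (show l ∈ {l ∈ (S : Set L3) | l.ev x0 ≠ l0.ev x0} from ⟨hl, hll⟩) e
  intro x hx
  exact closure_minimal hO (isClosed_eq hφ (ev_cont l0)) (Cc_sub_closure D x0 hx)

private theorem ext_fin (D : Finset L3) (x0 : P2) : ((Cc D x0).extremePoints ℝ).Finite := by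
  classical
  refine Set.Finite.of_injOn (f := fun x => D.filter fun d => d.ev x = 0)
    (t := (D.powerset : Set (Finset L3))) (fun x _ => ?_) ?_ (Finset.finite_toSet _)
  · exact Finset.mem_coe.2 (Finset.mem_powerset.2 (Finset.filter_subset _ _))
  · intro x hx y hy hxy
    by_contra hne
    have hz : ∀ d ∈ D, (d.ev x = 0 ↔ d.ev y = 0) := by
      intro d hd
      have := congrArg (fun s : Finset L3 => d ∈ s) hxy
      simpa [hd] using this
    have hε : ∀ᶠ ε in nhdsWithin (0 : ℝ) (Set.Ioi 0), ∀ d ∈ D, d.ev x ≠ 0 →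
        ε * |d.ev y - d.ev x| ≤ |d.ev x| := by
      rw [Filter.eventually_all_finset]
      intro d hd
      by_cases h0 : d.ev x = 0
      · exact Filter.Eventually.of_forall fun _ h => absurd h0 h
      · have h1 : Filter.Tendsto (fun ε : ℝ => ε * |d.ev y - d.ev x|)
            (nhdsWithin 0 (Set.Ioi 0)) (nhds 0) := by
          have : Continuous (fun ε : ℝ => ε * |d.ev y - d.ev x|) := by fun_prop
          have h3 := this.tendsto 0
          simp only [zero_mul] at h3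
          exact h3.mono_left nhdsWithin_le_nhds
        filter_upwards [h1.eventually (Iio_mem_nhds (abs_pos.2 h0))] with ε hε _
        exact (show ε * |d.ev y - d.ev x| < |d.ev x| from hε).le
    obtain ⟨ε, hε, hε0⟩ := (hε.and self_mem_nhdsWithin).exists
    have hε0' : (0 : ℝ) < ε := hε0
    have key : ∀ s : ℝ, |s| = ε → (1 - s) • x + s • y ∈ Cc D x0 := by
      intro s hs d hd
      rw [ev_comb d x y _ _ (by ring)]
      obtain ⟨h1, h2, h3⟩ := hx.1 d hd
      have e : (1 - s) * d.ev x + s * d.ev y = d.ev x + s * (d.ev y - d.ev x) := by ring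
      rw [e]
      by_cases h0 : d.ev x = 0
      · rw [h0, (hz d hd).1 h0]
        simp
      · have h4 : |s * (d.ev y - d.ev x)| ≤ |d.ev x| := by
          rw [abs_mul, hs]
          exact hε d hd h0
        rw [abs_le] at h4
        refine ⟨fun h => ?_, fun h => ?_, fun h => absurd (h3 h) h0⟩
        · rw [abs_of_nonneg (h1 h)] at h4
          linarith [h4.1]
        · rw [abs_of_nonpos (h2 h)] at h4
          linarith [h4.2]
    have h1 := key ε (abs_of_pos hε0')
    have h2 := key (-ε) (by rw [abs_neg, abs_of_pos hε0'])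
    have h3 : x ∈ openSegment ℝ ((1 - ε) • x + ε • y) ((1 - -ε) • x + (-ε) • y) := by
      refine ⟨1 / 2, 1 / 2, by norm_num, by norm_num, by norm_num, ?_⟩
      module
    have h4 := hx.2 h1 h2 h3
    have h5 : ε • (y - x) = 0 := by
      have : ε • (y - x) = ((1 - ε) • x + ε • y) - x := by module
      rw [this]
      rw [h4, sub_self]
    rcases smul_eq_zero.1 h5 with h6 | h6
    · exact hε0'.ne' h6
    · exact hne (sub_eq_zero.1 h6).symm

private theorem finset_bdd (P : Finset (Finset (ℝ × ℝ))) : ∃ R : ℝ,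
    ∀ x ∈ ⋃ s ∈ P, convexHull ℝ (↑s : Set (ℝ × ℝ)), ‖x‖ < R := by
  have h : IsCompact (⋃ s ∈ P, convexHull ℝ (↑s : Set (ℝ × ℝ))) :=
    P.isCompact_biUnion fun s _ => s.finite_toSet.isCompact_convexHull ℝ
  obtain ⟨R, hR⟩ := h.isBounded.subset_ball (0 : ℝ × ℝ)
  exact ⟨R, fun x hx => by simpa using hR hx⟩

/-- every element of `Gc` is affine on the members of a finite set of polytopes and the identity elsewhere -/
theorem gc_poly (g : Equiv.Perm (ℝ × ℝ)) (hg : g ∈ Gc) :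
    Continuous ⇑g ∧ Continuous ⇑g.symm ∧
      ∃ P : Finset (Finset (ℝ × ℝ)),
        (∀ x : ℝ × ℝ, x ∉ (⋃ s ∈ P, convexHull ℝ (↑s : Set (ℝ × ℝ))) → g x = x) ∧
        ∀ s ∈ P, ∃ A : (ℝ × ℝ) →ᵃ[ℝ] (ℝ × ℝ),
          ∀ x ∈ convexHull ℝ (↑s : Set (ℝ × ℝ)), g x = A x := by
  classical
  obtain ⟨⟨h1, h2⟩, R, hR⟩ := hg
  refine ⟨h1.cont, h2.cont, ?_⟩
  obtain ⟨⟨c1, S1, hS1, s1⟩, ⟨c2, S2, hS2, s2⟩⟩ := h1
  set S : Finset L3 := hS1.toFinset ∪ hS2.toFinset with hS
  set D : Finset L3 := ((S ×ˢ S).image fun t : L3 × L3 =>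
      (⟨t.1.a - t.2.a, t.1.b - t.2.b, t.1.c - t.2.c⟩ : L3)) ∪
    {⟨-1, 0, R⟩, ⟨1, 0, R⟩, ⟨0, -1, R⟩, ⟨0, 1, R⟩} with hD
  have hDS : ∀ l ∈ S, ∀ l' ∈ S, (⟨l.a - l'.a, l.b - l'.b, l.c - l'.c⟩ : L3) ∈ D := by
    intro l hl l' hl'
    exact Finset.mem_union_left _ (Finset.mem_image.2 ⟨(l, l'), Finset.mk_mem_product hl hl', rfl⟩)
  have hB : ∀ x0 : P2, ‖x0‖ ≤ R → ∀ x ∈ Cc D x0, ‖x‖ ≤ R := by
    intro x0 hx0 x hx
    rw [Prod.norm_def, max_le_iff, Real.norm_eq_abs, Real.norm_eq_abs, abs_le, abs_le] at hx0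
    have hgen : ∀ d ∈ D, 0 ≤ d.ev x0 → 0 ≤ d.ev x := by
      intro d hd h0
      rcases h0.lt_or_eq with h0 | h0
      · exact (hx d hd).1 h0
      · exact ((hx d hd).2.2 h0.symm).ge
    have a1 := hgen ⟨-1, 0, R⟩ (by simp [hD]) (by simp [L3.ev]; linarith)
    have a2 := hgen ⟨1, 0, R⟩ (by simp [hD]) (by simp [L3.ev]; linarith)
    have a3 := hgen ⟨0, -1, R⟩ (by simp [hD]) (by simp [L3.ev]; linarith)
    have a4 := hgen ⟨0, 1, R⟩ (by simp [hD]) (by simp [L3.ev]; linarith)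
    simp only [L3.ev] at a1 a2 a3 a4
    rw [Prod.norm_def, max_le_iff, Real.norm_eq_abs, Real.norm_eq_abs, abs_le, abs_le]
    refine ⟨⟨?_, ?_⟩, ?_, ?_⟩ <;> linarith
  have hhull : ∀ x0 : P2, ‖x0‖ ≤ R → convexHull ℝ ((Cc D x0).extremePoints ℝ) = Cc D x0 := by
    intro x0 hx0
    have hcomp : IsCompact (Cc D x0) := by
      refine (isCompact_closedBall (0 : P2) R).of_isClosed_subset (Cc_closed D x0) ?_
      intro x hx
      simpa using hB x0 hx0 x hx
    have e := closure_convexHull_extremePoints hcomp (Cc_convex D x0)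
    rwa [((ext_fin D x0).isCompact_convexHull ℝ).isClosed.closure_eq] at e
  -- the finite set of cells
  let C' : (D → SignType) → Set P2 := fun τ => {x | ∀ d : D, (τ d = 1 → 0 ≤ d.1.ev x) ∧
    (τ d = -1 → d.1.ev x ≤ 0) ∧ (τ d = 0 → d.1.ev x = 0)}
  have hC' : ∀ x0, Cc D x0 = C' (fun d => SignType.sign (d.1.ev x0)) := by
    intro x0
    ext x
    constructor
    · intro hx d
      obtain ⟨g1, g2, g3⟩ := hx d.1 d.2
      exact ⟨fun h => g1 (sign_eq_one_iff.1 h), fun h => g2 (sign_eq_neg_one_iff.1 h),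
        fun h => g3 (sign_eq_zero_iff.1 h)⟩
    · intro hx d hd
      obtain ⟨g1, g2, g3⟩ := hx ⟨d, hd⟩
      exact ⟨fun h => g1 (sign_eq_one_iff.2 h), fun h => g2 (sign_eq_neg_one_iff.2 h),
        fun h => g3 (sign_eq_zero_iff.2 h)⟩
  let T : Set (Finset (ℝ × ℝ)) :=
    {s | ∃ x0 : P2, ‖x0‖ ≤ R ∧ (↑s : Set P2) = (Cc D x0).extremePoints ℝ}
  have hT : T.Finite := by
    refine (Set.finite_range fun τ : D → SignType =>
      if h : ((C' τ).extremePoints ℝ).Finite then h.toFinset else ∅).subset ?_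
    rintro s ⟨x0, hx0, hs⟩
    refine ⟨fun d => SignType.sign (d.1.ev x0), ?_⟩
    have h3 : ((C' (fun d => SignType.sign (d.1.ev x0))).extremePoints ℝ).Finite := by
      rw [← hC']
      exact ext_fin D x0
    simp only [dif_pos h3]
    apply Finset.coe_injective
    rw [Set.Finite.coe_toFinset, hs, hC' x0]
  refine ⟨hT.toFinset, fun x hx => ?_, fun s hs => ?_⟩
  · apply hR
    by_contra hlt
    rw [not_le] at hlt
    apply hx
    refine Set.mem_biUnion (x := (ext_fin D x).toFinset) ?_ ?_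
    · exact hT.mem_toFinset.2 ⟨x, hlt.le, by rw [Set.Finite.coe_toFinset]⟩
    · rw [Set.Finite.coe_toFinset, hhull x hlt.le]
      exact mem_Cc D x
  · obtain ⟨x0, hx0, hs⟩ := hT.mem_toFinset.1 hs
    obtain ⟨m, hm⟩ := sel D S hDS _ c1 (fun x => by
      obtain ⟨l, hl, e⟩ := s1 x
      exact ⟨l, Finset.mem_union_left _ (hS1.mem_toFinset.2 hl), e⟩) x0
    obtain ⟨n, hn⟩ := sel D S hDS _ c2 (fun x => by
      obtain ⟨l, hl, e⟩ := s2 x
      exact ⟨l, Finset.mem_union_right _ (hS2.mem_toFinset.2 hl), e⟩) x0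
    obtain ⟨A, hA⟩ := L3_aff m n
    refine ⟨A, fun x hx => ?_⟩
    rw [hs, hhull x0 hx0] at hx
    rw [hA]
    exact Prod.ext (hm x hx) (hn x hx)


end C715
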